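import Pool.Agent.W475.BG.Stm

set_option autoImplicit false

/-!
# Project BG, subtask BG-LOWD: lower bound where the first term dominates
-/

namespace Pool.Agent.W661.BG

open Complex MeasureTheory Filter Topology Pool.Agent.W475.BG
open Pool.Agent.W475.BH (Vh)
open scoped ComplexConjugate

/-- the real part of the exponent of the `n`-th term -/
noncomputable def ex (D : Dat) (κ t : ℝ) (u : ℂ) (L : ℝ) : ℝ :=
  ((be D t).re - L) * u.re - (be D t).im * u.im -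
    κ * (((be D t).re - L) ^ 2 - (be D t).im ^ 2)

theorem norm_tm (D : Dat) (κ t : ℝ) (u : ℂ) {n : ℕ} (hn : 0 < n) :
    ‖tm D κ t u n‖ =
      ‖D.a n‖ * (n : ℝ) ^ (-(1 / 2) : ℝ) * Real.exp (ex D κ t u (Real.log n)) := by
  unfold tm
  rw [norm_mul, norm_mul, Complex.norm_natCast_cpow_of_pos hn, Complex.norm_exp]
  congr 1
  · congr 2
    simp
  · congr 1
    unfold ex
    simp only [Complex.sub_re, Complex.mul_re, Complex.sub_im, Complex.ofReal_re,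
      Complex.ofReal_im, sq, Complex.mul_im]
    ring

theorem ex_shift (D : Dat) (κ t : ℝ) (u : ℂ) (L : ℝ) :
    ex D κ t u L =
      ex D κ t u 0 + (-L * u.re + 2 * κ * (be D t).re * L - κ * L ^ 2) := by
  unfold ex
  ring

theorem tm_one (D : Dat) (h : D.a 1 = 1) (κ t : ℝ) (u : ℂ) :
    ‖tm D κ t u 1‖ = Real.exp (ex D κ t u 0) := by
  rw [norm_tm D κ t u one_pos, h]
  simp

/-- the terms after the first one are small -/
theorem tm_le {D : Dat} {A c3 κ t δ l : ℝ} {u : ℂ} (h1' : D.a 1 = 1) (hA : 0 ≤ A)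
    (hgr : ∀ n : ℕ, 1 ≤ n → ‖D.a n‖ ≤ (n : ℝ) ^ A) (hκ : 0 < κ)
    (hδ : A + 5 + 2 * κ * c3 ≤ δ * l)
    (hb : (be D t).re ≤ (D.d : ℝ) * l / 2 + c3) (hu : ((D.d : ℝ) * κ + δ) * l ≤ u.re) {n : ℕ}
    (hn : 2 ≤ n) : ‖tm D κ t u n‖ ≤ ‖tm D κ t u 1‖ * (1 / 8 * ((n : ℝ) ^ 2)⁻¹) := by
  have hn0 : 0 < n := by omega
  have hnr : (2 : ℝ) ≤ n := by exact_mod_cast hn
  have hnp : (0 : ℝ) < n := by linarith
  have hL : 0 ≤ Real.log n := Real.log_nonneg (by linarith)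
  rw [norm_tm D κ t u hn0, tm_one D h1', ex_shift, Real.exp_add]
  have h1 : -Real.log n * u.re + 2 * κ * (be D t).re * Real.log n - κ * Real.log n ^ 2 ≤
      -((A + 5) * Real.log n) := by
    have e1 : Real.log n * (((D.d : ℝ) * κ + δ) * l) ≤ Real.log n * u.re :=
      mul_le_mul_of_nonneg_left hu hL
    have e2 : (be D t).re * (2 * κ * Real.log n) ≤
        ((D.d : ℝ) * l / 2 + c3) * (2 * κ * Real.log n) :=
      mul_le_mul_of_nonneg_right hb (by positivity)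
    have e3 : (A + 5 + 2 * κ * c3) * Real.log n ≤ δ * l * Real.log n :=
      mul_le_mul_of_nonneg_right hδ hL
    have e4 : 0 ≤ κ * Real.log n ^ 2 := by positivity
    nlinarith [e1, e2, e3, e4]
  have h2 : Real.exp (-((A + 5) * Real.log n)) = (n : ℝ) ^ (-(A + 5)) := by
    rw [Real.rpow_def_of_pos hnp]
    congr 1
    ring
  have h3 : ((n : ℝ) ^ 5)⁻¹ ≤ 1 / 8 * ((n : ℝ) ^ 2)⁻¹ := by
    have e : (8 : ℝ) ≤ (n : ℝ) ^ 3 := by
      calc (8 : ℝ) = 2 ^ 3 := by norm_num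
        _ ≤ _ := by gcongr
    have e5 : 1 / 8 * ((n : ℝ) ^ 2)⁻¹ = (8 * (n : ℝ) ^ 2)⁻¹ := by
      rw [mul_inv]; norm_num
    rw [e5]
    apply inv_anti₀ (by positivity)
    have e6 : (n : ℝ) ^ 5 = (n : ℝ) ^ 3 * (n : ℝ) ^ 2 := by ring
    rw [e6]
    gcongr
  have h4 : (n : ℝ) ^ (-(1 / 2) : ℝ) ≤ 1 :=
    Real.rpow_le_one_of_one_le_of_nonpos (by linarith) (by norm_num)
  have h40 : 0 ≤ (n : ℝ) ^ (-(1 / 2) : ℝ) := by positivity
  have h5 : Real.exp (-Real.log n * u.re + 2 * κ * (be D t).re * Real.log n -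
      κ * Real.log n ^ 2) ≤ (n : ℝ) ^ (-(A + 5)) := by
    refine (Real.exp_le_exp.2 h1).trans ?_
    rw [h2]
  have h6 : 0 < Real.exp (ex D κ t u 0) := Real.exp_pos _
  have h7 : (n : ℝ) ^ A * (n : ℝ) ^ (-(A + 5)) = ((n : ℝ) ^ 5)⁻¹ := by
    rw [← Real.rpow_add hnp]
    have e : A + -(A + 5) = -((5 : ℕ) : ℝ) := by
      push_cast
      ring
    rw [e, Real.rpow_neg hnp.le, Real.rpow_natCast]
  have h8 : ‖D.a n‖ * (n : ℝ) ^ (-(1 / 2) : ℝ) ≤ (n : ℝ) ^ A := by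
    have := hgr n (by omega)
    calc ‖D.a n‖ * (n : ℝ) ^ (-(1 / 2) : ℝ) ≤ ‖D.a n‖ * 1 := by gcongr
      _ = ‖D.a n‖ := mul_one _
      _ ≤ _ := this
  calc ‖D.a n‖ * (n : ℝ) ^ (-(1 / 2) : ℝ) * (Real.exp (ex D κ t u 0) *
        Real.exp (-Real.log n * u.re + 2 * κ * (be D t).re * Real.log n -
          κ * Real.log n ^ 2))
      ≤ (n : ℝ) ^ A * (Real.exp (ex D κ t u 0) * (n : ℝ) ^ (-(A + 5))) := by
        gcongr
    _ = Real.exp (ex D κ t u 0) * ((n : ℝ) ^ A * (n : ℝ) ^ (-(A + 5))) := by ring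
    _ ≤ _ := by
        rw [h7]
        exact mul_le_mul_of_nonneg_left h3 h6.le

theorem sum_rest {D : Dat} {A c3 κ t δ l : ℝ} {u : ℂ} (h1' : D.a 1 = 1) (hA : 0 ≤ A)
    (hgr : ∀ n : ℕ, 1 ≤ n → ‖D.a n‖ ≤ (n : ℝ) ^ A) (hκ : 0 < κ)
    (hδ : A + 5 + 2 * κ * c3 ≤ δ * l)
    (hb : (be D t).re ≤ (D.d : ℝ) * l / 2 + c3) (hu : ((D.d : ℝ) * κ + δ) * l ≤ u.re) {N : ℕ}
    (hN : 1 ≤ N) : ∑ n ∈ Finset.Ioc 1 N, ‖tm D κ t u n‖ ≤ ‖tm D κ t u 1‖ * (1 / 8) := by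
  have h1 : ∑ n ∈ Finset.Ioc 1 N, ‖tm D κ t u n‖ ≤
      ∑ n ∈ Finset.Ioc 1 N, ‖tm D κ t u 1‖ * (1 / 8 * ((n : ℝ) ^ 2)⁻¹) := by
    refine Finset.sum_le_sum fun n hn => tm_le h1' hA hgr hκ hδ hb hu ?_
    have := (Finset.mem_Ioc.1 hn).1
    omega
  refine h1.trans ?_
  rw [← Finset.mul_sum, ← Finset.mul_sum]
  have h2 := sum_Ioc_inv_sq_le_sub (α := ℝ) (k := 1) (n := N) one_ne_zero hN
  have h3 : 0 ≤ ((N : ℕ) : ℝ)⁻¹ := by positivity
  have h4 : ∑ n ∈ Finset.Ioc 1 N, ((n : ℝ) ^ 2)⁻¹ ≤ 1 := by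
    refine h2.trans ?_
    simp only [Nat.cast_one, inv_one]
    linarith
  have h5 : 0 ≤ ‖tm D κ t u 1‖ := norm_nonneg _
  nlinarith

/-- the profile is even -/
theorem Vd_abs (d : ℕ) (κ X : ℝ) : Vd d κ |X| = Vd d κ X := by
  unfold Vd Vh
  simp only [abs_abs, sq_abs]

/-- the norms on the two sides of the line agree -/
theorem XK_refl (D : Dat) (hD : Ok D) (hY : S_SYM D) {κ : ℝ} (hκ : 0 < κ) (t : ℝ) (u : ℂ) :
    ‖XK D κ (I * t + u)‖ = ‖XK D κ (I * t + -conj u)‖ := by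
  obtain ⟨_, h, _⟩ := hY κ hκ
  have e : I * t + u = -(conj (I * t + -conj u)) := by
    simp only [map_add, map_mul, Complex.conj_I, Complex.conj_ofReal, map_neg,
      Complex.conj_conj]
    ring
  rw [e, h, norm_mul, hD.hw, one_mul, Complex.conj_conj, RCLike.norm_conj]

/-- the right-hand side -/
theorem lowd_pos (D : Dat) (hD : Ok D) (h1 : S_STIR D) (h2 : S_LOC D) :
    ∀ κ : ℝ, 0 < κ → ∀ δ : ℝ, 0 < δ → ∀ K : ℝ, 1 ≤ K →
  ∃ C T0 : ℝ, 0 < C ∧ 2 ≤ T0 ∧ ∀ t : ℝ, T0 ≤ t → ∀ u : ℂ, ‖u‖ ≤ K * Real.log t →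
  ((D.d : ℝ) * κ + δ) * Real.log t ≤ u.re →
  ‖HH D (I * t)‖ * Real.exp (Real.log t ^ 2 * Vd D.d κ (u.re / Real.log t) - C * Real.log t) ≤
    ‖XK D κ (I * t + u)‖ := by
  intro κ hκ δ hδ K hK
  obtain ⟨K0, T1, hK0, hT1, hst⟩ := h1
  obtain ⟨M, T2, hM, hT2, hloc⟩ := h2 κ hκ K hK
  obtain ⟨A, hA, hgr⟩ := hD.gr
  have ha1 := hD.a1
  have hd1 : (1 : ℝ) ≤ D.d := by exact_mod_cast hD.hd
  obtain ⟨d, hd⟩ : ∃ d : ℝ, d = (D.d : ℝ) := ⟨_, rfl⟩
  rw [← hd] at hd1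
  have hpi := Real.pi_gt_three
  have hl2 : 0 < Real.log (2 * Real.pi) := Real.log_pos (by linarith)
  -- constants
  obtain ⟨c3, hc3⟩ : ∃ c3 : ℝ, c3 = K0 + |Real.log D.Q| := ⟨_, rfl⟩
  obtain ⟨c1, hc1⟩ : ∃ c1 : ℝ, c1 = c3 + d * Real.log (2 * Real.pi) / 2 := ⟨_, rfl⟩
  obtain ⟨c2, hc2⟩ : ∃ c2 : ℝ, c2 = d * Real.pi / 4 + K0 := ⟨_, rfl⟩
  have hc30 : 0 < c3 := by rw [hc3]; positivity
  have hc10 : 0 < c1 := by rw [hc1]; positivity
  have hc20 : 0 < c2 := by rw [hc2]; positivity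
  obtain ⟨c, hc⟩ : ∃ c : ℝ, c = (c1 + c2) * K + κ * d * c3 + κ * c3 ^ 2 := ⟨_, rfl⟩
  have hc0 : 0 < c := by rw [hc]; positivity
  have hev : ∀ᶠ t : ℝ in atTop,
      (A + 5 + 2 * κ * c3) / δ + 2 * c1 + 4 * c / κ + 1 ≤ Real.log t ∧
      t ^ (-(9 / 10) : ℝ) ≤ 1 / 8 ∧ t ^ (-10 : ℝ) ≤ 1 / 8 ∧
      T1 ≤ t ∧ T2 ≤ t ∧ 2 ≤ t := by
    refine (Real.tendsto_log_atTop.eventually_ge_atTop _).and (Filter.Eventually.and ?_
      (Filter.Eventually.and ?_ ((eventually_ge_atTop _).and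
      ((eventually_ge_atTop _).and (eventually_ge_atTop _)))))
    · exact (tendsto_rpow_neg_atTop (by norm_num : (0 : ℝ) < 9 / 10)).eventually_le_const
        (by norm_num)
    · exact (tendsto_rpow_neg_atTop (by norm_num : (0 : ℝ) < 10)).eventually_le_const
        (by norm_num)
  obtain ⟨T0, hT0⟩ := Filter.eventually_atTop.1 hev
  refine ⟨c + 1, max T0 2, by positivity, le_max_right _ _, fun t ht u hu hre => ?_⟩
  obtain ⟨g1, g2, g3, g5, g6, g7⟩ := hT0 t ((le_max_left _ _).trans ht)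
  have ht0 : 0 < t := by linarith
  obtain ⟨l, hl⟩ : ∃ l : ℝ, l = Real.log t := ⟨_, rfl⟩
  rw [← hl] at g1 hu hre ⊢
  have q1 : 0 < (A + 5 + 2 * κ * c3) / δ := by positivity
  have q2 : 0 < 4 * c / κ := by positivity
  have hl1 : 1 ≤ l := by linarith
  have hl5 : A + 5 + 2 * κ * c3 ≤ δ * l := by
    have : (A + 5 + 2 * κ * c3) / δ ≤ l := by linarith
    rwa [div_le_iff₀ hδ, mul_comm l δ] at this
  have hlc : 4 * c ≤ κ * l := by
    have : 4 * c / κ ≤ l := by linarith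
    rwa [div_le_iff₀ hκ, mul_comm l κ] at this
  -- the number `be t`
  obtain ⟨hHH, hbe, _⟩ := hst t g5
  have hlog : Real.log (t / (2 * Real.pi)) = l - Real.log (2 * Real.pi) := by
    rw [Real.log_div (by positivity) (by positivity), hl]
  have hKt : K0 / t ≤ K0 := div_le_self (by linarith) (by linarith)
  have hre' := (Complex.abs_re_le_norm _).trans hbe
  have him' := (Complex.abs_im_le_norm _).trans hbe
  simp only [Complex.sub_re, Complex.add_re, Complex.mul_re, Complex.I_re, Complex.I_im,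
    Complex.ofReal_re, Complex.ofReal_im, Complex.sub_im, Complex.add_im, Complex.mul_im,
    zero_mul, one_mul, sub_zero, add_zero, mul_zero, zero_add, sub_self] at hre' him'
  rw [hlog, ← hd, abs_le] at hre'
  rw [← hd, abs_le] at him'
  have hQ1 := le_abs_self (Real.log D.Q)
  have hQ2 := neg_abs_le (Real.log D.Q)
  have hdl : 0 ≤ d * Real.log (2 * Real.pi) := by positivity
  have hb1 : (be D t).re ≤ d * l / 2 + c3 := by
    rw [hc3]
    nlinarith [hre'.2]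
  have hb2 : d * l / 2 - c1 ≤ (be D t).re := by
    rw [hc1, hc3]
    nlinarith [hre'.1]
  have hb3 : |(be D t).im| ≤ c2 := by
    rw [abs_le, hc2]
    have : 0 ≤ d * Real.pi := by positivity
    constructor <;> nlinarith [him'.1, him'.2]
  have hb0 : 0 ≤ (be D t).re := by
    have : 1 * l ≤ d * l := mul_le_mul_of_nonneg_right hd1 (by linarith)
    linarith
  -- the first term
  have hth : u.re ≤ K * l := (Complex.re_le_norm u).trans hu
  have him : |u.im| ≤ K * l := (Complex.abs_im_le_norm u).trans hu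
  have hu0 : 0 ≤ u.re := by
    refine le_trans ?_ hre
    positivity
  have hex : d * l * u.re / 2 - κ * d ^ 2 * l ^ 2 / 4 - c * l ≤ ex D κ t u 0 := by
    unfold ex
    rw [sub_zero]
    have e1 : d * l * u.re / 2 - c1 * (K * l) ≤ (be D t).re * u.re := by
      have : (d * l / 2 - c1) * u.re ≤ (be D t).re * u.re :=
        mul_le_mul_of_nonneg_right hb2 hu0
      have : c1 * u.re ≤ c1 * (K * l) := mul_le_mul_of_nonneg_left hth hc10.le
      nlinarith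
    have e2 : (be D t).im * u.im ≤ c2 * (K * l) := by
      refine (le_abs_self _).trans ?_
      rw [abs_mul]
      exact mul_le_mul hb3 him (abs_nonneg _) hc20.le
    have e3 : (be D t).re ^ 2 ≤ (d * l / 2 + c3) ^ 2 := pow_le_pow_left₀ hb0 hb1 2
    have e4 : κ * (be D t).re ^ 2 ≤ κ * (d * l / 2 + c3) ^ 2 :=
      mul_le_mul_of_nonneg_left e3 hκ.le
    have e5 : 0 ≤ κ * (be D t).im ^ 2 := by positivity
    have e6 : κ * (d * l / 2 + c3) ^ 2 =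
        κ * d ^ 2 * l ^ 2 / 4 + κ * d * c3 * l + κ * c3 ^ 2 := by ring
    have e7 : κ * c3 ^ 2 * 1 ≤ κ * c3 ^ 2 * l :=
      mul_le_mul_of_nonneg_left hl1 (by positivity)
    have e8 : c * l = c1 * (K * l) + c2 * (K * l) + κ * d * c3 * l + κ * c3 ^ 2 * l := by
      rw [hc]; ring
    rw [e8]
    linarith
  have hV : l ^ 2 * Vd D.d κ (u.re / l) = d * l * u.re / 2 - κ * d ^ 2 * l ^ 2 / 4 := by
    unfold Vd Vh
    rw [← hd]
    have hX : d * κ < |u.re / l| := by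
      rw [abs_of_nonneg (by positivity), lt_div_iff₀ (by linarith)]
      have : 0 < δ * l := by positivity
      rw [← hd] at hre
      linarith
    rw [if_neg (not_le.2 hX), abs_of_nonneg (by positivity)]
    field_simp
  have hone : 1 ≤ ‖tm D κ t u 1‖ := by
    rw [tm_one D ha1, ← Real.exp_zero]
    apply Real.exp_le_exp.2
    refine le_trans ?_ hex
    rw [← hd] at hre
    have e0 : 0 ≤ d * l := by positivity
    have e1 : d * l * ((d * κ + δ) * l) ≤ d * l * u.re := mul_le_mul_of_nonneg_left hre e0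
    have e2 : 4 * c * l ≤ κ * l * l := mul_le_mul_of_nonneg_right hlc (by linarith)
    have e3 : 0 ≤ d * δ * l * l := by positivity
    have e4 : 0 ≤ κ * l * l := by positivity
    have e5 : κ * l * l * 1 ≤ κ * l * l * d ^ 2 :=
      mul_le_mul_of_nonneg_left (one_le_pow₀ hd1) e4
    nlinarith
  have hhalf : Real.exp (l ^ 2 * Vd D.d κ (u.re / l) - (c + 1) * l) ≤
      ‖tm D κ t u 1‖ / 2 := by
    rw [hV, tm_one D ha1]
    have e1 : d * l * u.re / 2 - κ * d ^ 2 * l ^ 2 / 4 - (c + 1) * l ≤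
        ex D κ t u 0 - l := by
      linarith
    refine (Real.exp_le_exp.2 e1).trans ?_
    rw [Real.exp_sub, hl, Real.exp_log ht0]
    exact div_le_div_of_nonneg_left (Real.exp_pos _).le (by norm_num) g7
  -- the sum
  have hN : 1 ≤ ⌊t ^ M⌋₊ := by
    rw [Nat.one_le_floor_iff]
    exact Real.one_le_rpow (by linarith) (by linarith)
  have hmem : 1 ∈ Finset.Icc 1 ⌊t ^ M⌋₊ := Finset.mem_Icc.2 ⟨le_rfl, hN⟩
  have hrest := sum_rest (D := D) (t := t) (u := u) ha1 hA hgr hκ hl5 (hd ▸ hb1) hre hN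
  have hs1 : ∑ n ∈ Finset.Icc 1 ⌊t ^ M⌋₊, ‖tm D κ t u n‖ ≤ 9 / 8 * ‖tm D κ t u 1‖ := by
    rw [← Finset.add_sum_erase _ _ hmem, Finset.Icc_erase_left]
    linarith
  have hs2 : 7 / 8 * ‖tm D κ t u 1‖ ≤ ‖∑ n ∈ Finset.Icc 1 ⌊t ^ M⌋₊, tm D κ t u n‖ := by
    rw [← Finset.add_sum_erase _ _ hmem, Finset.Icc_erase_left]
    have e1 := norm_sub_norm_le (tm D κ t u 1) (-∑ n ∈ Finset.Ioc 1 ⌊t ^ M⌋₊, tm D κ t u n)
    rw [sub_neg_eq_add, norm_neg] at e1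
    have e2 := norm_sum_le (Finset.Ioc 1 ⌊t ^ M⌋₊) (tm D κ t u)
    linarith
  have hL := hloc t g6 u (by rw [← hl]; exact hu) hu0
  have hH0 : 0 ≤ ‖HH D (I * t)‖ := norm_nonneg _
  have e1 : ‖HH D (I * t)‖ * ‖∑ n ∈ Finset.Icc 1 ⌊t ^ M⌋₊, tm D κ t u n‖ -
      ‖XK D κ (I * t + u)‖ ≤
      ‖HH D (I * t)‖ * (t ^ (-(9 / 10) : ℝ) * ∑ n ∈ Finset.Icc 1 ⌊t ^ M⌋₊, ‖tm D κ t u n‖ +
      t ^ (-10 : ℝ)) := by
    refine le_trans ?_ hL
    rw [← norm_mul, norm_sub_rev]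
    exact norm_sub_norm_le _ _
  have e2 : t ^ (-(9 / 10) : ℝ) * ∑ n ∈ Finset.Icc 1 ⌊t ^ M⌋₊, ‖tm D κ t u n‖ +
      t ^ (-10 : ℝ) ≤ 3 / 8 * ‖tm D κ t u 1‖ := by
    have e3 : t ^ (-(9 / 10) : ℝ) * ∑ n ∈ Finset.Icc 1 ⌊t ^ M⌋₊, ‖tm D κ t u n‖ ≤
        1 / 8 * (9 / 8 * ‖tm D κ t u 1‖) :=
      mul_le_mul g2 hs1 (Finset.sum_nonneg fun _ _ => norm_nonneg _) (by norm_num)
    linarith
  have e3 : ‖HH D (I * t)‖ * (t ^ (-(9 / 10) : ℝ) *
      ∑ n ∈ Finset.Icc 1 ⌊t ^ M⌋₊, ‖tm D κ t u n‖ +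
      t ^ (-10 : ℝ)) ≤ ‖HH D (I * t)‖ * (3 / 8 * ‖tm D κ t u 1‖) :=
    mul_le_mul_of_nonneg_left e2 hH0
  have e4 : ‖HH D (I * t)‖ * (7 / 8 * ‖tm D κ t u 1‖) ≤
      ‖HH D (I * t)‖ * ‖∑ n ∈ Finset.Icc 1 ⌊t ^ M⌋₊, tm D κ t u n‖ :=
    mul_le_mul_of_nonneg_left hs2 hH0
  have e5 : ‖HH D (I * t)‖ * Real.exp (l ^ 2 * Vd D.d κ (u.re / l) - (c + 1) * l) ≤
      ‖HH D (I * t)‖ * (‖tm D κ t u 1‖ / 2) := mul_le_mul_of_nonneg_left hhalf hH0
  nlinarith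

/-- BG-LOWD -/
theorem lowd (D : Dat) (hD : Ok D) (hY : S_SYM D) (hS : S_STIR D) (hL : S_LOC D) :
    S_LOWD D := by
  intro κ hκ δ hδ K hK
  obtain ⟨C, T0, hC, hT, h⟩ := lowd_pos D hD hS hL κ hκ δ hδ K hK
  refine ⟨C, T0, hC, hT, fun t ht u hu hre => ?_⟩
  rcases le_total 0 u.re with h0 | h0
  · rw [abs_of_nonneg h0] at hre
    exact h t ht u hu hre
  · rw [abs_of_nonpos h0] at hre
    have hc := h t ht (-conj u) (by rw [norm_neg, RCLike.norm_conj]; exact hu)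
      (by rw [Complex.neg_re, Complex.conj_re]; exact hre)
    rw [XK_refl D hD hY hκ t u]
    refine le_trans (le_of_eq ?_) hc
    have e : Vd D.d κ ((-conj u).re / Real.log t) = Vd D.d κ (u.re / Real.log t) := by
      rw [← Vd_abs D.d κ ((-conj u).re / Real.log t), ← Vd_abs D.d κ (u.re / Real.log t)]
      rw [Complex.neg_re, Complex.conj_re, neg_div, abs_neg]
    rw [e]

end Pool.Agent.W661.BG
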